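import Mathlib

/-!
Averages over finite types.
-/

set_option autoImplicit false

open Finset

namespace Pool.Agent.R973

/-- average of a real function on a finite type -/
noncomputable def av {X : Type*} [Fintype X] (f : X → ℝ) : ℝ := (∑ x, f x) / (Fintype.card X : ℝ)

variable {X Y : Type*} [Fintype X] [Fintype Y]

lemma av_mono {f g : X → ℝ} (h : ∀ x, f x ≤ g x) : av f ≤ av g := by
  unfold av
  exact div_le_div_of_nonneg_right (Finset.sum_le_sum fun x _ => h x) (Nat.cast_nonneg _)

lemma av_nonneg {f : X → ℝ} (h : ∀ x, 0 ≤ f x) : 0 ≤ av f := by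
  unfold av
  exact div_nonneg (Finset.sum_nonneg fun x _ => h x) (Nat.cast_nonneg _)

lemma av_add (f g : X → ℝ) : av (fun x => f x + g x) = av f + av g := by
  unfold av
  rw [Finset.sum_add_distrib, add_div]

lemma av_sub (f g : X → ℝ) : av (fun x => f x - g x) = av f - av g := by
  unfold av
  rw [Finset.sum_sub_distrib, sub_div]

lemma av_smul (c : ℝ) (f : X → ℝ) : av (fun x => c * f x) = c * av f := by
  unfold av
  rw [← Finset.mul_sum, mul_div_assoc]

lemma av_sum {ι : Type*} (s : Finset ι) (f : ι → X → ℝ) :
    av (fun x => ∑ i ∈ s, f i x) = ∑ i ∈ s, av (f i) := by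
  unfold av
  rw [Finset.sum_comm, Finset.sum_div]

lemma av_const [Nonempty X] (c : ℝ) : av (fun _ : X => c) = c := by
  unfold av
  rw [Finset.sum_const, Finset.card_univ, nsmul_eq_mul]
  have : (Fintype.card X : ℝ) ≠ 0 := by
    have := Fintype.card_pos (α := X)
    positivity
  field_simp

lemma av_equiv (e : X ≃ Y) (f : Y → ℝ) : av (fun x => f (e x)) = av f := by
  unfold av
  rw [Fintype.card_congr e, Equiv.sum_comp e f]

lemma av_prod (f : X × Y → ℝ) : av f = av (fun x => av (fun y => f (x, y))) := by
  unfold av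
  rw [Fintype.sum_prod_type, Fintype.card_prod, Finset.sum_div, Finset.sum_div]
  refine Finset.sum_congr rfl fun x _ => ?_
  push_cast
  rw [mul_comm (Fintype.card X : ℝ), div_div]

lemma av_fst [Nonempty Y] (f : X → ℝ) : av (fun p : X × Y => f p.1) = av f := by
  rw [av_prod]
  simp only [av_const]

/-- restriction of a uniform function to an injectively chosen set of coordinates is uniform -/
lemma av_comp_inj {I J Z : Type*} [Fintype I] [Fintype J] [DecidableEq I] [DecidableEq J]
    [Fintype Z] [Nonempty Z]
    (e : J → I) (he : Function.Injective e) (f : (J → Z) → ℝ) :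
    av (fun s : I → Z => f (fun j => s (e j))) = av f := by
  classical
  let φ : J ⊕ {x : I // x ∉ Set.range e} ≃ I :=
    (Equiv.sumCongr (Equiv.ofInjective e he) (Equiv.refl _)).trans
      (Equiv.Set.sumCompl (Set.range e))
  have hφ : ∀ j, φ (Sum.inl j) = e j := fun j => rfl
  let ψ : (I → Z) ≃ (J → Z) × ({x : I // x ∉ Set.range e} → Z) :=
    (Equiv.arrowCongr φ.symm (Equiv.refl Z)).trans (Equiv.sumArrowEquivProdArrow _ _ _)
  have hψ : ∀ s : I → Z, (ψ s).1 = fun j => s (e j) := by
    intro s
    funext j
    simp [ψ, hφ]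
  have h1 : av (fun s : I → Z => f (ψ s).1) =
      av (fun p : (J → Z) × ({x : I // x ∉ Set.range e} → Z) => f p.1) :=
    av_equiv ψ (fun p => f p.1)
  simp only [hψ] at h1
  rw [h1, av_fst]

/-- Variance bound: a function with differences at most one in every coordinate. -/
lemma var_le_fin {Z : Type*} [Fintype Z] [Nonempty Z] : ∀ (n : ℕ) (f : (Fin n → Z) → ℝ),
    (∀ x x' : Fin n → Z, (∃ i, ∀ j, j ≠ i → x j = x' j) → |f x - f x'| ≤ 1) →
    av (fun x => (f x - av f) ^ 2) ≤ n := by
  intro n
  induction n with
  | zero =>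
    intro f _
    have h1 : av f = f default := by
      unfold av
      simp
    have h2 : ∀ x : Fin 0 → Z, f x = f default := fun x => by rw [Subsingleton.elim x default]
    have : (fun x => (f x - av f) ^ 2) = fun _ : Fin 0 → Z => (0 : ℝ) := by
      funext x
      rw [h1, h2 x]; ring
    rw [this, av_const]
    simp
  | succ n ih =>
    intro f hf
    -- decomposition
    let E : (Fin (n + 1) → Z) ≃ Z × (Fin n → Z) := (Fin.consEquiv (fun _ => Z)).symm
    have hE : ∀ (z : Z) (y : Fin n → Z), E.symm (z, y) = Fin.cons z y := fun z y => rfl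
    let F : Z × (Fin n → Z) → ℝ := fun p => f (Fin.cons p.1 p.2)
    have key : ∀ G : (Fin (n + 1) → Z) → ℝ, av G = av (fun y : Fin n → Z => av (fun z : Z => G (Fin.cons z y))) := by
      intro G
      have h1 := av_equiv ((Equiv.prodComm _ _).trans E.symm) G
      rw [← h1, av_prod]
      rfl
    set g : (Fin n → Z) → ℝ := fun y => av (fun z : Z => f (Fin.cons z y)) with hg
    have hm : av g = av f := (key f).symm
    -- bounded differences for g
    have hg1 : ∀ x x' : Fin n → Z, (∃ i, ∀ j, j ≠ i → x j = x' j) → |g x - g x'| ≤ 1 := by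
      rintro x x' ⟨i, hi⟩
      rw [hg]
      simp only
      rw [← av_sub, abs_le]
      have h2 : ∀ z : Z, |f (Fin.cons z x) - f (Fin.cons z x')| ≤ 1 := by
        intro z
        apply hf
        refine ⟨i.succ, fun j hj => ?_⟩
        induction j using Fin.cases with
        | zero => simp
        | succ j =>
          simp only [Fin.cons_succ]
          exact hi j (fun h => hj (by rw [h]))
      constructor
      · have h3 := av_mono (f := fun _ : Z => (-1 : ℝ)) (g := fun z => f (Fin.cons z x) - f (Fin.cons z x'))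
          (fun z => (abs_le.1 (h2 z)).1)
        rwa [av_const] at h3
      · have h3 := av_mono (g := fun _ : Z => (1 : ℝ)) (f := fun z => f (Fin.cons z x) - f (Fin.cons z x'))
          (fun z => (abs_le.1 (h2 z)).2)
        rwa [av_const] at h3
    have ihg := ih g hg1
    rw [key]
    -- inner variance
    have hin : ∀ y : Fin n → Z, av (fun z : Z => (f (Fin.cons z y) - av f) ^ 2) ≤
        1 + (g y - av g) ^ 2 := by
      intro y
      have h4 : ∀ z : Z, |f (Fin.cons z y) - g y| ≤ 1 := by
        intro z
        have h5 : f (Fin.cons z y) - g y = av (fun z' : Z => f (Fin.cons z y) - f (Fin.cons z' y)) := by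
          rw [av_sub, av_const]
        have h6 : ∀ z' : Z, |f (Fin.cons z y) - f (Fin.cons z' y)| ≤ 1 := by
          intro z'
          apply hf
          refine ⟨0, fun j hj => ?_⟩
          induction j using Fin.cases with
          | zero => exact absurd rfl hj
          | succ j => simp
        rw [h5, abs_le]
        constructor
        · have h3 := av_mono (f := fun _ : Z => (-1 : ℝ)) (g := fun z' => f (Fin.cons z y) - f (Fin.cons z' y))
            (fun z' => (abs_le.1 (h6 z')).1)
          rwa [av_const] at h3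
        · have h3 := av_mono (g := fun _ : Z => (1 : ℝ)) (f := fun z' => f (Fin.cons z y) - f (Fin.cons z' y))
            (fun z' => (abs_le.1 (h6 z')).2)
          rwa [av_const] at h3
      have h7 : ∀ z : Z, (f (Fin.cons z y) - av f) ^ 2 =
          (f (Fin.cons z y) - g y) ^ 2 + (2 * (g y - av g)) * (f (Fin.cons z y) - g y) +
            (g y - av g) ^ 2 := by
        intro z
        rw [hm]; ring
      simp only [h7]
      rw [av_add, av_add, av_smul, av_const]
      have h8 : av (fun z : Z => f (Fin.cons z y) - g y) = 0 := by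
        rw [av_sub, av_const]
        simp [hg]
      rw [h8]
      have h9 : av (fun z : Z => (f (Fin.cons z y) - g y) ^ 2) ≤ 1 := by
        have := av_mono (f := fun z : Z => (f (Fin.cons z y) - g y) ^ 2) (g := fun _ => 1)
          (fun z => by
            have := h4 z
            rw [← sq_abs]
            exact pow_le_one₀ (abs_nonneg _) this)
        rwa [av_const] at this
      linarith
    calc av (fun y : Fin n → Z => av (fun z : Z => (f (Fin.cons z y) - av f) ^ 2))
        ≤ av (fun y : Fin n → Z => 1 + (g y - av g) ^ 2) := av_mono hin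
      _ = 1 + av (fun y : Fin n → Z => (g y - av g) ^ 2) := by rw [av_add, av_const]
      _ ≤ 1 + n := by linarith
      _ = ((n + 1 : ℕ) : ℝ) := by push_cast; ring

lemma var_le {Z ι : Type*} [Fintype Z] [Nonempty Z] [Fintype ι] [DecidableEq ι]
    (f : (ι → Z) → ℝ)
    (hf : ∀ x x' : ι → Z, (∃ i, ∀ j, j ≠ i → x j = x' j) → |f x - f x'| ≤ 1) :
    av (fun x => (f x - av f) ^ 2) ≤ Fintype.card ι := by
  let e := Fintype.equivFin ι
  let E : (Fin (Fintype.card ι) → Z) ≃ (ι → Z) := Equiv.arrowCongr e.symm (Equiv.refl Z)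
  have hE : ∀ (x : Fin (Fintype.card ι) → Z) (i : ι), E x i = x (e i) := fun x i => rfl
  have h1 := var_le_fin (Fintype.card ι) (fun x => f (E x)) (by
    rintro x x' ⟨i, hi⟩
    apply hf
    refine ⟨e.symm i, fun j hj => ?_⟩
    rw [hE, hE]
    apply hi
    intro h
    exact hj (by rw [← h]; simp))
  have h2 : av (fun x => f (E x)) = av f := av_equiv E f
  rw [h2] at h1
  have h3 : av (fun x => (f (E x) - av f) ^ 2) = av (fun x => (f x - av f) ^ 2) :=
    av_equiv E (fun x => (f x - av f) ^ 2)
  rwa [h3] at h1

open Classical in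
/-- Chebyshev -/
lemma cheb (f : X → ℝ) {m V : ℝ} (hm : 0 < m) (hav : m ≤ av f)
    (hV : av (fun x => (f x - av f) ^ 2) ≤ V) :
    av (fun x => if f x < m / 2 then (1 : ℝ) else 0) ≤ 4 * V / m ^ 2 := by
  have h1 : ∀ x, (if f x < m / 2 then (1 : ℝ) else 0) ≤ (4 / m ^ 2) * (f x - av f) ^ 2 := by
    intro x
    split_ifs with h
    · have h2 : m / 2 ≤ av f - f x := by linarith
      have h3 : (m / 2) ^ 2 ≤ (f x - av f) ^ 2 := by
        rw [← sq_abs (f x - av f), abs_sub_comm]
        have h4 : m / 2 ≤ |av f - f x| := h2.trans (le_abs_self _)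
        gcongr
      have h5 : 0 < m ^ 2 := by positivity
      rw [div_mul_eq_mul_div, le_div_iff₀ h5]
      nlinarith
    · positivity
  refine (av_mono h1).trans ?_
  rw [av_smul]
  calc 4 / m ^ 2 * av (fun x => (f x - av f) ^ 2) ≤ 4 / m ^ 2 * V :=
        mul_le_mul_of_nonneg_left hV (by positivity)
    _ = _ := by ring

end Pool.Agent.R973
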