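import Pool.Agent.R973.Avg

/-!
Occupancy estimates.
-/

set_option autoImplicit false

open Finset

namespace Pool.Agent.R973

open Classical in
/-- indicator of a proposition -/
noncomputable def ind (p : Prop) : ℝ := if p then 1 else 0

lemma ind_true {p : Prop} (h : p) : ind p = 1 := by simp [ind, h]
lemma ind_false {p : Prop} (h : ¬ p) : ind p = 0 := by simp [ind, h]
lemma ind_nonneg (p : Prop) : 0 ≤ ind p := by unfold ind; split_ifs <;> norm_num
lemma ind_le_one (p : Prop) : ind p ≤ 1 := by unfold ind; split_ifs <;> norm_num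
lemma ind_mono {p q : Prop} (h : p → q) : ind p ≤ ind q := by
  by_cases hp : p
  · rw [ind_true hp, ind_true (h hp)]
  · rw [ind_false hp]; exact ind_nonneg q
lemma ind_congr {p q : Prop} (h : p ↔ q) : ind p = ind q := by rw [propext h]
lemma ind_not (p : Prop) : ind (¬ p) = 1 - ind p := by
  by_cases hp : p
  · rw [ind_true hp, ind_false (not_not.2 hp)]; ring
  · rw [ind_false hp, ind_true hp]; ring
lemma ind_forall {ι : Type*} [Fintype ι] (A : ι → Prop) : ind (∀ i, A i) = ∏ i, ind (A i) := by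
  by_cases h : ∀ i, A i
  · rw [ind_true h, Finset.prod_eq_one fun i _ => ind_true (h i)]
  · rw [ind_false h]
    push Not at h
    obtain ⟨i, hi⟩ := h
    exact (Finset.prod_eq_zero (Finset.mem_univ i) (ind_false hi)).symm
lemma ind_or_le (p q : Prop) : ind (p ∨ q) ≤ ind p + ind q := by
  by_cases hp : p
  · rw [ind_true hp, ind_true (Or.inl hp)]
    have := ind_nonneg q
    linarith
  · by_cases hq : q
    · rw [ind_true hq, ind_true (Or.inr hq)]
      have := ind_nonneg p
      linarith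
    · rw [ind_false hp, ind_false hq, ind_false (by tauto)]; norm_num
lemma ind_exists_le {ι : Type*} [Fintype ι] (A : ι → Prop) :
    ind (∃ i, A i) ≤ ∑ i, ind (A i) := by
  by_cases h : ∃ i, A i
  · rw [ind_true h]
    obtain ⟨i, hi⟩ := h
    rw [← ind_true hi]
    exact Finset.single_le_sum (f := fun i => ind (A i)) (fun i _ => ind_nonneg _) (Finset.mem_univ i)
  · rw [ind_false h]
    exact Finset.sum_nonneg fun i _ => ind_nonneg _

lemma av_pi_prod {ι X : Type*} [Fintype ι] [DecidableEq ι] [Fintype X] (g : ι → X → ℝ) :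
    av (fun v : ι → X => ∏ i, g i (v i)) = ∏ i, av (g i) := by
  unfold av
  rw [Finset.prod_div_distrib, Finset.prod_univ_sum, Fintype.piFinset_univ, Finset.prod_const,
    Finset.card_univ, Fintype.card_fun]
  push_cast
  rfl

lemma av_ind_forall {ι X : Type*} [Fintype ι] [DecidableEq ι] [Fintype X] (A : ι → X → Prop) :
    av (fun v : ι → X => ind (∀ i, A i (v i))) = ∏ i, av (fun x : X => ind (A i x)) := by
  rw [← av_pi_prod]
  congr 1
  funext v
  rw [ind_forall]

lemma av_ind_not {X : Type*} [Fintype X] [Nonempty X] (A : X → Prop) :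
    av (fun x : X => ind (¬ A x)) = 1 - av (fun x : X => ind (A x)) := by
  have h1 : (1 : ℝ) = av (fun _ : X => (1 : ℝ)) := (av_const 1).symm
  rw [h1, ← av_sub]
  congr 1
  funext x
  rw [ind_not]

open Classical in
lemma sum_ind {X : Type*} [Fintype X] (p : X → Prop) :
    ∑ x, ind (p x) = ((Finset.univ.filter p).card : ℝ) := by
  unfold ind
  rw [Finset.natCast_card_filter]

lemma sum_ind_eq {X : Type*} [Fintype X] (a : X) : ∑ x, ind (x = a) = 1 := by
  rw [Finset.sum_eq_single a, ind_true rfl]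
  · intro x _ hx
    exact ind_false hx
  · intro h
    exact absurd (Finset.mem_univ a) h

lemma sum_ind_eq' {X : Type*} [Fintype X] (a : X) : ∑ x, ind (a = x) = 1 := by
  rw [Finset.sum_eq_single a, ind_true rfl]
  · intro x _ hx
    exact ind_false hx.symm
  · intro h
    exact absurd (Finset.mem_univ a) h

lemma av_ind_mem {b : ℕ} (H : Finset (Fin b)) :
    av (fun x : Fin b => ind (x ∈ H)) = (H.card : ℝ) / b := by
  classical
  unfold av
  rw [Fintype.card_fin, sum_ind]
  congr 3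
  ext; simp

open Classical in
/-- the set of bins hit in each of the `L` rounds -/
noncomputable def heavy {b L Q : ℕ} (w : Fin L × Fin Q → Fin b) : Finset (Fin b) :=
  Finset.univ.filter (fun t => ∀ m : Fin L, ∃ q : Fin Q, w (m, q) = t)

lemma mem_heavy {b L Q : ℕ} (w : Fin L × Fin Q → Fin b) (t : Fin b) :
    t ∈ heavy w ↔ ∀ m : Fin L, ∃ q : Fin Q, w (m, q) = t := by
  simp [heavy]

lemma card_heavy {b L Q : ℕ} (w : Fin L × Fin Q → Fin b) :
    ((heavy w).card : ℝ) = ∑ t : Fin b, ind (∀ m : Fin L, ∃ q : Fin Q, w (m, q) = t) := by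
  classical
  rw [sum_ind]
  congr 2
  ext t
  simp [heavy]

lemma av_heavy {b L Q : ℕ} (hb : 1 ≤ b) :
    av (fun w : Fin L × Fin Q → Fin b => ((heavy w).card : ℝ)) =
      b * (1 - (1 - 1 / (b : ℝ)) ^ Q) ^ L := by
  have : Nonempty (Fin b) := ⟨⟨0, hb⟩⟩
  have h0 : (b : ℝ) ≠ 0 := by positivity
  simp only [card_heavy]
  rw [av_sum]
  have h2 : ∀ t : Fin b, av (fun w : Fin L × Fin Q → Fin b =>
      ind (∀ m : Fin L, ∃ q : Fin Q, w (m, q) = t)) = (1 - (1 - 1 / (b : ℝ)) ^ Q) ^ L := by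
    intro t
    have h3 := av_equiv (Equiv.curry (Fin L) (Fin Q) (Fin b))
      (fun v : Fin L → Fin Q → Fin b => ind (∀ m : Fin L, ∃ q : Fin Q, v m q = t))
    have h4 : (fun w : Fin L × Fin Q → Fin b =>
        ind (∀ m : Fin L, ∃ q : Fin Q, w (m, q) = t)) =
        (fun w => ind (∀ m : Fin L, ∃ q : Fin Q, (Equiv.curry (Fin L) (Fin Q) (Fin b)) w m q = t)) :=
      rfl
    rw [h4, h3, av_ind_forall (fun (_ : Fin L) (y : Fin Q → Fin b) => ∃ q : Fin Q, y q = t),
      Finset.prod_const, Finset.card_univ, Fintype.card_fin]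
    congr 1
    have h5 := av_ind_not (X := Fin Q → Fin b) (fun y => ∀ q : Fin Q, ¬ y q = t)
    have h6 : (fun x : Fin Q → Fin b => ind (¬ ∀ q : Fin Q, ¬ x q = t)) =
        fun x => ind (∃ q : Fin Q, x q = t) := by
      funext x
      apply ind_congr
      push Not
      rfl
    rw [h6] at h5
    rw [h5]
    congr 1
    rw [av_ind_forall (fun (_ : Fin Q) (y : Fin b) => ¬ y = t),
      Finset.prod_const, Finset.card_univ, Fintype.card_fin]
    congr 1
    rw [av_ind_not]
    congr 1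
    have h8 := av_ind_mem ({t} : Finset (Fin b))
    simp only [Finset.mem_singleton, Finset.card_singleton, Nat.cast_one] at h8
    exact h8
  rw [Finset.sum_congr rfl fun t _ => h2 t, Finset.sum_const, Finset.card_univ, Fintype.card_fin,
    nsmul_eq_mul]

lemma heavy_bd {b L Q : ℕ} (x x' : Fin L × Fin Q → Fin b)
    (h : ∃ i, ∀ j, j ≠ i → x j = x' j) :
    |((heavy x).card : ℝ) - ((heavy x').card : ℝ)| ≤ 1 := by
  classical
  obtain ⟨i, hi⟩ := h
  -- heavy x ⊆ insert (x i) (heavy x')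
  have key : ∀ y y' : Fin L × Fin Q → Fin b, (∀ j, j ≠ i → y j = y' j) →
      heavy y ⊆ insert (y i) (heavy y') := by
    intro y y' hy t ht
    rw [Finset.mem_insert]
    by_cases h : t = y i
    · exact Or.inl h
    · right
      rw [mem_heavy] at ht ⊢
      intro m
      obtain ⟨q, hq⟩ := ht m
      refine ⟨q, ?_⟩
      rw [← hy (m, q)]
      · exact hq
      · rintro rfl
        exact h hq.symm
  have h1 := Finset.card_le_card (key x x' hi)
  have h2 := Finset.card_le_card (key x' x fun j hj => (hi j hj).symm)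
  have h3 := Finset.card_insert_le (x i) (heavy x')
  have h4 := Finset.card_insert_le (x' i) (heavy x)
  have h5 : ((heavy x).card : ℝ) ≤ (heavy x').card + 1 := by exact_mod_cast h1.trans h3
  have h6 : ((heavy x').card : ℝ) ≤ (heavy x).card + 1 := by exact_mod_cast h2.trans h4
  rw [abs_le]
  constructor <;> linarith

/-- few heavy bins: unlikely -/
lemma heavy_cheb {b L Q : ℕ} (hb : 1 ≤ b) {c : ℝ} (hc : 0 < c)
    (hcl : c ≤ (1 - (1 - 1 / (b : ℝ)) ^ Q) ^ L) :
    av (fun w : Fin L × Fin Q → Fin b => ind (((heavy w).card : ℝ) < b * c / 2)) ≤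
      4 * (L * Q) / (b * c) ^ 2 := by
  have : Nonempty (Fin b) := ⟨⟨0, hb⟩⟩
  have hb0 : (0 : ℝ) < b := by positivity
  have h1 := var_le (fun w : Fin L × Fin Q → Fin b => ((heavy w).card : ℝ))
    (fun x x' h => heavy_bd x x' h)
  have h2 := cheb (fun w : Fin L × Fin Q → Fin b => ((heavy w).card : ℝ)) (m := b * c)
    (V := (L * Q : ℝ)) (by positivity) (by rw [av_heavy hb]; gcongr) (by
      refine h1.trans (le_of_eq ?_)
      rw [Fintype.card_prod, Fintype.card_fin, Fintype.card_fin]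
      push_cast
      ring)
  exact h2

/-- leaders -/
lemma av_leaders {b ζ Q : ℕ} (hb : 1 ≤ b) (H : Fin ζ → Finset (Fin b)) :
    av (fun u : Fin Q × Fin ζ → Fin b => ind (∀ i : Fin Q, ∃ j : Fin ζ, u (i, j) ∉ H j)) =
      (1 - ∏ j, ((H j).card : ℝ) / b) ^ Q := by
  have : Nonempty (Fin b) := ⟨⟨0, hb⟩⟩
  have h3 := av_equiv (Equiv.curry (Fin Q) (Fin ζ) (Fin b))
    (fun v : Fin Q → Fin ζ → Fin b => ind (∀ i : Fin Q, ∃ j : Fin ζ, v i j ∉ H j))
  have h4 : (fun w : Fin Q × Fin ζ → Fin b => ind (∀ i : Fin Q, ∃ j : Fin ζ, w (i, j) ∉ H j)) =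
      (fun w => ind (∀ i : Fin Q, ∃ j : Fin ζ,
        (Equiv.curry (Fin Q) (Fin ζ) (Fin b)) w i j ∉ H j)) := rfl
  rw [h4, h3, av_ind_forall (fun (_ : Fin Q) (y : Fin ζ → Fin b) => ∃ j : Fin ζ, y j ∉ H j),
    Finset.prod_const, Finset.card_univ, Fintype.card_fin]
  congr 1
  have h5 := av_ind_not (X := Fin ζ → Fin b) (fun y => ∀ q : Fin ζ, y q ∈ H q)
  have h6 : (fun x : Fin ζ → Fin b => ind (¬ ∀ q : Fin ζ, x q ∈ H q)) =
      fun x => ind (∃ q : Fin ζ, x q ∉ H q) := by
    funext x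
    apply ind_congr
    push Not
    rfl
  rw [h6] at h5
  rw [h5, av_ind_forall (fun (q : Fin ζ) (y : Fin b) => y ∈ H q)]
  congr 1
  exact Finset.prod_congr rfl fun j _ => av_ind_mem (H j)

end Pool.Agent.R973
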