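import Pool.Agent.R684.VG.Stm

/-!
# VG-SH (MP_a85771_al): Shapiro's lemma for derivations into permutation modules (helper973)
-/

set_option autoImplicit false

namespace Pool.Agent.R973.VGSH

open Pool.Agent.R684.VG

variable {L : Type} [Group L] (H : Subgroup L)

/-- base point -/
def x0 : L ⧸ H := ((1 : L) : L ⧸ H)

lemma smul_x0 (g : L) : g • x0 H = (g : L ⧸ H) := by
  unfold x0
  rw [MulAction.Quotient.smul_coe, smul_eq_mul, mul_one]

lemma smul_x0_mem (h : L) (hh : h ∈ H) : h • x0 H = x0 H := by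
  rw [smul_x0]
  unfold x0
  rw [QuotientGroup.eq]
  simpa using H.inv_mem hh

/-- restriction to `H` at the base point -/
def Phi : Zp L H →ₗ[ℂ] (Additive H →+ ℂ) where
  toFun c :=
    { toFun := fun h => c.1 (Additive.toMul h : H) (x0 H)
      map_zero' := by
        have h1 := c.2 1 1 (x0 H)
        simp only [mul_one, inv_one, one_smul] at h1
        have h2 : c.1 1 (x0 H) = 0 := by
          have := h1
          linear_combination -h1
        simpa using h2
      map_add' := by
        intro a b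
        have h1 := c.2 ((Additive.toMul a : H) : L) ((Additive.toMul b : H) : L) (x0 H)
        rw [smul_x0_mem H _ (H.inv_mem (Additive.toMul a).2)] at h1
        exact h1 }
  map_add' := fun c d => rfl
  map_smul' := fun a c => rfl

lemma Phi_apply (c : Zp L H) (h : H) : Phi H c (Additive.ofMul h) = c.1 h (x0 H) := rfl

/-- inner derivations -/
def del : ((L ⧸ H) → ℂ) →ₗ[ℂ] Zp L H where
  toFun u := ⟨fun g x => u (g⁻¹ • x) - u x, by
    intro g h x
    change u ((g * h)⁻¹ • x) - u x = (u (g⁻¹ • x) - u x) + (u (h⁻¹ • g⁻¹ • x) - u (g⁻¹ • x))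
    rw [mul_inv_rev, mul_smul]
    ring⟩
  map_add' := fun u v => by
    apply Subtype.ext
    funext g x
    change (u + v) (g⁻¹ • x) - (u + v) x = (u (g⁻¹ • x) - u x) + (v (g⁻¹ • x) - v x)
    simp only [Pi.add_apply]
    ring
  map_smul' := fun a u => by
    apply Subtype.ext
    funext g x
    change (a • u) (g⁻¹ • x) - (a • u) x = a * (u (g⁻¹ • x) - u x)
    simp only [Pi.smul_apply, smul_eq_mul]
    ring

lemma del_apply (u : (L ⧸ H) → ℂ) (g : L) (x : L ⧸ H) : (del H u).1 g x = u (g⁻¹ • x) - u x := rfl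

/-- representatives -/
noncomputable def rr (x : L ⧸ H) : L := Quotient.out x

lemma rr_coe (x : L ⧸ H) : ((rr H x : L) : L ⧸ H) = x := Quotient.out_eq x

lemma rr_smul (x : L ⧸ H) : rr H x • x0 H = x := by rw [smul_x0, rr_coe]

lemma kk_mem (g : L) (x : L ⧸ H) : (rr H x)⁻¹ * (g * rr H (g⁻¹ • x)) ∈ H := by
  rw [← QuotientGroup.eq, rr_coe, ← smul_eq_mul, ← MulAction.Quotient.smul_coe, rr_coe,
    smul_inv_smul]

/-- cocycle of the permutation action -/
noncomputable def kk (g : L) (x : L ⧸ H) : H := ⟨_, kk_mem H g x⟩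

lemma kk_mul (g h : L) (x : L ⧸ H) : kk H (g * h) x = kk H g x * kk H h (g⁻¹ • x) := by
  apply Subtype.ext
  change (rr H x)⁻¹ * (g * h * rr H ((g * h)⁻¹ • x)) =
    (rr H x)⁻¹ * (g * rr H (g⁻¹ • x)) * ((rr H (g⁻¹ • x))⁻¹ * (h * rr H (h⁻¹ • g⁻¹ • x)))
  rw [mul_inv_rev, mul_smul]
  group

lemma Phi_surj : Function.Surjective (Phi H) := by
  intro φ
  refine ⟨⟨fun g x => φ (Additive.ofMul (kk H g x)), ?_⟩, ?_⟩
  · intro g h x
    change φ (Additive.ofMul (kk H (g * h) x)) = φ (Additive.ofMul (kk H g x)) +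
      φ (Additive.ofMul (kk H h (g⁻¹ • x)))
    rw [kk_mul, ofMul_mul, map_add]
  · refine AddMonoidHom.ext fun a => ?_
    obtain ⟨h, rfl⟩ := Additive.ofMul.surjective a
    change φ (Additive.ofMul (kk H h (x0 H))) = φ (Additive.ofMul h)
    have hr : rr H (x0 H) ∈ H := by
      have h1 := rr_coe H (x0 H)
      unfold x0 at h1
      have h2 := (QuotientGroup.eq (s := H)).1 h1
      have h3 : (rr H ((1 : L) : L ⧸ H))⁻¹ ∈ H := by simpa using h2
      have h4 := H.inv_mem h3
      rw [inv_inv] at h4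
      exact h4
    have hk : kk H h (x0 H) = (⟨_, hr⟩ : H)⁻¹ * (h * ⟨_, hr⟩) := by
      apply Subtype.ext
      change (rr H (x0 H))⁻¹ * ((h : L) * rr H ((h : L)⁻¹ • x0 H)) = _
      rw [smul_x0_mem H _ (H.inv_mem h.2)]
      rfl
    rw [hk, ofMul_mul, ofMul_mul, ofMul_inv, map_add, map_add, map_neg]
    ring

lemma ker_Phi : LinearMap.ker (Phi H) = LinearMap.range (del H) := by
  apply le_antisymm
  · intro c hc
    have hc0 : ∀ h ∈ H, c.1 h (x0 H) = 0 := by
      intro h hh
      have h1 : Phi H c (Additive.ofMul ⟨h, hh⟩) = 0 := by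
        rw [LinearMap.mem_ker.1 hc]
        rfl
      exact h1
    have key : ∀ g : L, c.1 g (g • x0 H) = c.1 (rr H (g • x0 H)) (g • x0 H) := by
      intro g
      have hm : g⁻¹ * rr H (g • x0 H) ∈ H := by
        rw [← QuotientGroup.eq, rr_coe, smul_x0]
      have h1 := c.2 g (g⁻¹ * rr H (g • x0 H)) (g • x0 H)
      rw [mul_inv_cancel_left, inv_smul_smul, hc0 _ hm, add_zero] at h1
      exact h1.symm
    refine ⟨fun x => - c.1 (rr H x) x, ?_⟩
    apply Subtype.ext
    funext k x
    rw [del_apply]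
    have h1 := c.2 k (k⁻¹ * rr H x) x
    rw [mul_inv_cancel_left] at h1
    have h2 : k⁻¹ • x = (k⁻¹ * rr H x) • x0 H := by
      rw [mul_smul, rr_smul]
    have h3 := key (k⁻¹ * rr H x)
    rw [← h2] at h3
    rw [h3] at h1
    rw [h1]
    ring
  · rintro _ ⟨u, rfl⟩
    rw [LinearMap.mem_ker]
    refine AddMonoidHom.ext fun a => ?_
    obtain ⟨h, rfl⟩ := Additive.ofMul.surjective a
    change (del H u).1 h (x0 H) = 0
    rw [del_apply, smul_x0_mem H _ (H.inv_mem h.2), sub_self]

lemma ker_del : LinearMap.ker (del H) = Submodule.span ℂ {(fun _ : L ⧸ H => (1 : ℂ))} := by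
  apply le_antisymm
  · intro u hu
    have h1 : ∀ (g : L) (x : L ⧸ H), u (g⁻¹ • x) - u x = 0 := by
      intro g x
      rw [← del_apply, LinearMap.mem_ker.1 hu]
      rfl
    rw [Submodule.mem_span_singleton]
    refine ⟨u (x0 H), ?_⟩
    funext x
    have h2 := h1 (rr H x) x
    have h3 : (rr H x)⁻¹ • x = x0 H := by
      conv_lhs => rw [← rr_smul H x]
      rw [rr_smul, inv_smul_eq_iff, rr_smul]
    rw [h3] at h2
    simp only [Pi.smul_apply, smul_eq_mul, mul_one]
    exact sub_eq_zero.1 h2
  · rw [Submodule.span_singleton_le_iff_mem, LinearMap.mem_ker]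
    apply Subtype.ext
    funext g x
    rw [del_apply, sub_self]
    rfl

lemma finite_Zp [Group.FG L] [H.FiniteIndex] : Module.Finite ℂ (Zp L H) := by
  obtain ⟨n, S, -, hS⟩ := (Group.fg_iff' (G := L)).1 inferInstance
  let ev : Zp L H →ₗ[ℂ] (S → (L ⧸ H) → ℂ) :=
    { toFun := fun c s => c.1 s
      map_add' := fun c d => rfl
      map_smul' := fun a c => rfl }
  have hinj : Function.Injective ev := by
    rw [← LinearMap.ker_eq_bot, eq_bot_iff]
    intro c hc
    have h0 : ∀ s ∈ S, c.1 s = 0 := by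
      intro s hs
      exact congrFun (LinearMap.mem_ker.1 hc) ⟨s, hs⟩
    have h1 : ∀ x, c.1 1 x = 0 := by
      intro x
      have h1 := c.2 1 1 x
      simp only [mul_one, inv_one, one_smul] at h1
      linear_combination -h1
    have hall : ∀ g : L, ∀ x, c.1 g x = 0 := by
      intro g
      have hg : g ∈ Subgroup.closure (S : Set L) := by rw [hS]; trivial
      induction hg using Subgroup.closure_induction with
      | mem s hs => exact fun x => congrFun (h0 s hs) x
      | one => exact h1
      | mul a b _ _ ha hb =>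
        intro x
        rw [c.2 a b x, ha, hb, add_zero]
      | inv a _ ha =>
        intro x
        have h2 := c.2 a a⁻¹ (a • x)
        rw [mul_inv_cancel, h1, ha, inv_smul_smul, zero_add] at h2
        exact h2.symm
    rw [Submodule.mem_bot]
    apply Subtype.ext
    funext g x
    exact hall g x
  exact Module.Finite.of_injective ev hinj

theorem t_SH : S_SH := by
  intro L _ _ H _
  have := finite_Zp H
  have : Fintype (L ⧸ H) := Fintype.ofFinite _
  have h1 := LinearMap.finrank_range_add_finrank_ker (Phi H)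
  rw [LinearMap.range_eq_top.2 (Phi_surj H), finrank_top, ker_Phi] at h1
  have h2 := LinearMap.finrank_range_add_finrank_ker (del H)
  have hne : (fun _ : L ⧸ H => (1 : ℂ)) ≠ 0 := by
    intro h
    exact one_ne_zero (congrFun h (x0 H))
  rw [ker_del, finrank_span_singleton hne, Module.finrank_fintype_fun_eq_card] at h2
  have h3 : H.index = Fintype.card (L ⧸ H) := by
    rw [Subgroup.index, Nat.card_eq_fintype_card]
  rw [h3, ← h1, ← h2]
  ring

end Pool.Agent.R973.VGSH
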